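import Mathlib

open Filter Topology

namespace Pool.Agent.Lib.MP_695dce_co

/-- The closed axis-parallel cube (proof-side copy, written as a set-builder). -/
abbrev box {d : ℕ} (a : Fin d → ℝ) (s : ℝ) : Set (EuclideanSpace ℝ (Fin d)) :=
  {x | ∀ i, a i ≤ x i ∧ x i ≤ a i + s}

lemma interior_box {d : ℕ} (a : Fin d → ℝ) (s : ℝ) (x : EuclideanSpace ℝ (Fin d))
    (hx : x ∈ interior (box a s)) (i : Fin d) : a i < x i ∧ x i < a i + s := by
  have hopen : IsOpenMap (fun y : EuclideanSpace ℝ (Fin d) => y i) :=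
    (isOpenMap_eval i).comp (PiLp.homeomorph 2 (fun _ : Fin d => ℝ)).isOpenMap
  have hcont : Continuous (fun y : EuclideanSpace ℝ (Fin d) => y i) := by fun_prop
  have hsub : box a s ⊆ (fun y : EuclideanSpace ℝ (Fin d) => y i) ⁻¹' Set.Icc (a i) (a i + s) :=
    fun y hy => hy i
  have := interior_mono hsub hx
  rw [← hopen.preimage_interior_eq_interior_preimage hcont, interior_Icc] at this
  exact this

lemma exists_cell (N : ℕ) (hN : 0 < N) (y : ℝ) (h0 : 0 ≤ y) (h1 : y ≤ 1) :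
    ∃ k : Fin N, (k : ℝ) ≤ N * y ∧ N * y ≤ k + 1 := by
  have hNy : 0 ≤ (N : ℝ) * y := by positivity
  by_cases h : ⌊(N : ℝ) * y⌋₊ < N
  · exact ⟨⟨_, h⟩, Nat.floor_le hNy, (Nat.lt_floor_add_one _).le⟩
  · refine ⟨⟨N - 1, by omega⟩, ?_, ?_⟩
    · have h2 : (N : ℝ) ≤ ⌊(N : ℝ) * y⌋₊ := by exact_mod_cast not_lt.mp h
      have h3 := Nat.floor_le hNy
      have h4 : ((N - 1 : ℕ) : ℝ) ≤ N := by exact_mod_cast Nat.sub_le N 1
      simp only
      linarith
    · have h4 : ((N - 1 : ℕ) : ℝ) = N - 1 := by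
        rw [Nat.cast_sub hN]; simp
      have h5 : (N : ℝ) * y ≤ N := by
        have : (0 : ℝ) ≤ N := by positivity
        nlinarith
      simp only
      linarith

lemma cell_unique (k l : ℕ) (t : ℝ) (h1 : (k : ℝ) < t) (h2 : t < k + 1) (h3 : (l : ℝ) < t)
    (h4 : t < l + 1) : k = l := by
  have a : (k : ℝ) < l + 1 := by linarith
  have b : (l : ℝ) < k + 1 := by linarith
  have a' : k < l + 1 := by exact_mod_cast a
  have b' : l < k + 1 := by exact_mod_cast b
  omega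

section TwoLevel

variable {d q : ℕ} (r : (Fin d → Fin q) → ℕ)

/-- index set of the two-level grid -/
abbrev Idx := Σ β : Fin d → Fin q, (Fin d → Fin (r β))

/-- corner of a small cube -/
noncomputable def corner (j : Idx r) : Fin d → ℝ :=
  fun i => ((j.1 i : ℝ) + (j.2 i : ℝ) / (r j.1 : ℝ)) / q

/-- side of a small cube -/
noncomputable def side (j : Idx r) : ℝ := 1 / ((q : ℝ) * r j.1)

lemma side_pos (hq : 0 < q) (hr : ∀ β, 0 < r β) (j : Idx r) : 0 < side r j := by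
  have := hr j.1
  unfold side
  positivity

lemma mem_cell_iff (hq : 0 < q) (hr : ∀ β, 0 < r β) (j : Idx r) (i : Fin d) (t : ℝ) :
    (corner r j i ≤ t ∧ t ≤ corner r j i + side r j) ↔
      ((j.2 i : ℝ) ≤ r j.1 * (q * t - j.1 i) ∧ r j.1 * (q * t - j.1 i) ≤ (j.2 i : ℝ) + 1) := by
  have hq' : (0 : ℝ) < q := by exact_mod_cast hq
  have hr' : (0 : ℝ) < r j.1 := by exact_mod_cast hr j.1
  have e1 : corner r j i = (r j.1 * (j.1 i : ℝ) + (j.2 i : ℝ)) / (q * r j.1) := by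
    unfold corner; field_simp
  have e2 : corner r j i + side r j = (r j.1 * (j.1 i : ℝ) + (j.2 i : ℝ) + 1) / (q * r j.1) := by
    unfold corner side; field_simp
  rw [e2, e1, div_le_iff₀ (by positivity), le_div_iff₀ (by positivity)]
  constructor <;> rintro ⟨h1, h2⟩ <;> constructor <;> nlinarith

lemma mem_open_cell (hq : 0 < q) (hr : ∀ β, 0 < r β) (j : Idx r) (i : Fin d) (t : ℝ)
    (h : corner r j i < t ∧ t < corner r j i + side r j) :
      ((j.2 i : ℝ) < r j.1 * (q * t - j.1 i) ∧ r j.1 * (q * t - j.1 i) < (j.2 i : ℝ) + 1) := by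
  have hq' : (0 : ℝ) < q := by exact_mod_cast hq
  have hr' : (0 : ℝ) < r j.1 := by exact_mod_cast hr j.1
  have e1 : corner r j i = (r j.1 * (j.1 i : ℝ) + (j.2 i : ℝ)) / (q * r j.1) := by
    unfold corner; field_simp
  have e2 : corner r j i + side r j = (r j.1 * (j.1 i : ℝ) + (j.2 i : ℝ) + 1) / (q * r j.1) := by
    unfold corner side; field_simp
  rw [e2, e1, div_lt_iff₀ (by positivity), lt_div_iff₀ (by positivity)] at h
  obtain ⟨h1, h2⟩ := h
  constructor <;> nlinarith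

lemma cover (hq : 0 < q) (hr : ∀ β, 0 < r β) :
    (⋃ j : Idx r, box (corner r j) (side r j)) = box 0 1 := by
  have hq' : (0 : ℝ) < q := by exact_mod_cast hq
  ext x
  simp only [Set.mem_iUnion, Set.mem_ofPred_eq, Pi.zero_apply, zero_add]
  constructor
  · rintro ⟨j, hj⟩ i
    have hr' : (0 : ℝ) < r j.1 := by exact_mod_cast hr j.1
    obtain ⟨h1, h2⟩ := (mem_cell_iff r hq hr j i (x i)).1 (hj i)
    have h3 : (0 : ℝ) ≤ (j.2 i : ℝ) := by positivity
    have h4 : ((j.2 i : ℕ) : ℝ) + 1 ≤ r j.1 := by exact_mod_cast (j.2 i).2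
    have h5 : (0 : ℝ) ≤ (j.1 i : ℝ) := by positivity
    have h6 : ((j.1 i : ℕ) : ℝ) + 1 ≤ q := by exact_mod_cast (j.1 i).2
    have h7 : 0 ≤ q * x i - j.1 i := by
      by_contra hh
      push Not at hh
      nlinarith
    have h8 : q * x i - j.1 i ≤ 1 := by
      by_contra hh
      push Not at hh
      nlinarith
    constructor
    · by_contra hh
      push Not at hh
      nlinarith
    · by_contra hh
      push Not at hh
      nlinarith
  · intro hx
    choose β hβ using fun i => exists_cell q hq (x i) (hx i).1 (hx i).2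
    choose γ hγ using fun i => exists_cell (r β) (hr β) (q * x i - β i)
      (by linarith [(hβ i).1]) (by linarith [(hβ i).2])
    exact ⟨⟨β, γ⟩, fun i => (mem_cell_iff r hq hr ⟨β, γ⟩ i (x i)).2 (hγ i)⟩

lemma disj (hq : 0 < q) (hr : ∀ β, 0 < r β) (j k : Idx r) (hjk : j ≠ k) :
    Disjoint (interior (box (corner r j) (side r j))) (interior (box (corner r k) (side r k))) := by
  rw [Set.disjoint_left]
  intro x hj hk
  apply hjk
  have key : ∀ l : Idx r, x ∈ interior (box (corner r l) (side r l)) → ∀ i,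
      ((l.1 i : ℝ) < q * x i ∧ q * x i < (l.1 i : ℝ) + 1) := by
    intro l hl i
    have hr' : (0 : ℝ) < r l.1 := by exact_mod_cast hr l.1
    obtain ⟨h1, h2⟩ := mem_open_cell r hq hr l i (x i) (interior_box _ _ x hl i)
    have h3 : (0 : ℝ) ≤ (l.2 i : ℝ) := by positivity
    have h4 : ((l.2 i : ℕ) : ℝ) + 1 ≤ r l.1 := by exact_mod_cast (l.2 i).2
    constructor
    · by_contra hh
      push Not at hh
      nlinarith
    · by_contra hh
      push Not at hh
      nlinarith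
  obtain ⟨β, γ⟩ := j
  obtain ⟨β', γ'⟩ := k
  have hβ : β = β' := by
    funext i
    exact Fin.ext (cell_unique _ _ _ (key _ hj i).1 (key _ hj i).2 (key _ hk i).1 (key _ hk i).2)
  subst hβ
  have hγ : γ = γ' := by
    funext i
    obtain ⟨h1, h2⟩ := mem_open_cell r hq hr _ i (x i) (interior_box _ _ x hj i)
    obtain ⟨h3, h4⟩ := mem_open_cell r hq hr _ i (x i) (interior_box _ _ x hk i)
    exact Fin.ext (cell_unique _ _ _ h1 h2 h3 h4)
  rw [hγ]

lemma card_idx : Fintype.card (Idx r) = ∑ β, r β ^ d := by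
  simp [Fintype.card_sigma]

end TwoLevel

/-- arithmetic: all large `n` have the required shape -/
lemma arith (d : ℕ) (hd : 0 < d) (D M₁ M₂ : ℕ) (hD : 0 < D) (h₁ : 0 < M₁) (h₂ : 0 < M₂)
    (hc : Nat.Coprime M₁ M₂) :
    ∃ N, ∀ n ≥ N, ∃ q k₁ k₂ : ℕ, 0 < q ∧ k₁ + k₂ ≤ q ^ d ∧ n = q ^ d * D + k₁ * M₁ + k₂ * M₂ := by
  obtain ⟨e, rfl⟩ : ∃ e, d = e + 1 := ⟨d - 1, by omega⟩
  set C := M₁ * M₂ with hC
  set Q := C + D * ((e + 1) * 2 ^ e) + 1 with hQ
  refine ⟨Q ^ (e + 1) * D + C, fun n hn => ?_⟩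
  have hex : ∃ q, n < (q + 1) ^ (e + 1) * D + C := by
    refine ⟨n, ?_⟩
    have h1 : n + 1 ≤ (n + 1) ^ (e + 1) := Nat.le_self_pow (by omega) _
    have h2 : (n + 1) ^ (e + 1) ≤ (n + 1) ^ (e + 1) * D := Nat.le_mul_of_pos_right _ hD
    omega
  classical
  set q := Nat.find hex with hqdef
  have hq1 : n < (q + 1) ^ (e + 1) * D + C := Nat.find_spec hex
  have hQq : Q ≤ q := by
    by_contra hh
    push Not at hh
    have : (q + 1) ^ (e + 1) ≤ Q ^ (e + 1) := Nat.pow_le_pow_left hh _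
    have : (q + 1) ^ (e + 1) * D ≤ Q ^ (e + 1) * D := Nat.mul_le_mul_right _ this
    omega
  have hqpos : 0 < q := by omega
  have hq2 : q ^ (e + 1) * D + C ≤ n := by
    have := Nat.find_min hex (m := q - 1) (by omega)
    rw [show q - 1 + 1 = q by omega] at this
    omega
  obtain ⟨a, b, hab⟩ := Nat.exists_add_mul_eq_of_gcd_dvd_of_mul_pred_le M₁ M₂
    (n - q ^ (e + 1) * D) (by rw [hc]; exact one_dvd _) (by
      have : M₁.pred * M₂.pred ≤ M₁ * M₂ := Nat.mul_le_mul (Nat.pred_le _) (Nat.pred_le _)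
      omega)
  refine ⟨q, a, b, hqpos, ?_, by omega⟩
  have hab2 : a + b ≤ a * M₁ + b * M₂ :=
    Nat.add_le_add (Nat.le_mul_of_pos_right _ h₁) (Nat.le_mul_of_pos_right _ h₂)
  have hstep : (q + 1) ^ (e + 1) ≤ q ^ (e + 1) + (e + 1) * 2 ^ e * q ^ e := by
    have h3 : ∀ m : ℕ, (q + 1) ^ (m + 1) ≤ q ^ (m + 1) + (m + 1) * (q + 1) ^ m := by
      intro m
      induction m with
      | zero => simp
      | succ m ih =>
        have h4 : q ^ (m + 1) ≤ (q + 1) ^ (m + 1) := Nat.pow_le_pow_left (by omega) _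
        calc (q + 1) ^ (m + 1 + 1) = (q + 1) ^ (m + 1) * (q + 1) := by ring
          _ ≤ (q ^ (m + 1) + (m + 1) * (q + 1) ^ m) * (q + 1) := Nat.mul_le_mul_right _ ih
          _ = q ^ (m + 1 + 1) + q ^ (m + 1) + (m + 1) * (q + 1) ^ (m + 1) := by ring
          _ ≤ q ^ (m + 1 + 1) + (q + 1) ^ (m + 1) + (m + 1) * (q + 1) ^ (m + 1) := by omega
          _ = q ^ (m + 1 + 1) + (m + 1 + 1) * (q + 1) ^ (m + 1) := by ring
    have h5 : (q + 1) ^ e ≤ 2 ^ e * q ^ e := by
      rw [← mul_pow]; exact Nat.pow_le_pow_left (by omega) _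
    calc (q + 1) ^ (e + 1) ≤ q ^ (e + 1) + (e + 1) * (q + 1) ^ e := h3 e
      _ ≤ q ^ (e + 1) + (e + 1) * (2 ^ e * q ^ e) := by gcongr
      _ = _ := by ring
  have hqe : 1 ≤ q ^ e := Nat.one_le_pow _ _ hqpos
  have h6 : (q + 1) ^ (e + 1) * D ≤ q ^ (e + 1) * D + D * ((e + 1) * 2 ^ e) * q ^ e := by
    calc (q + 1) ^ (e + 1) * D ≤ (q ^ (e + 1) + (e + 1) * 2 ^ e * q ^ e) * D :=
          Nat.mul_le_mul_right _ hstep
      _ = _ := by ring
  have h7 : C + D * ((e + 1) * 2 ^ e) * q ^ e ≤ q ^ (e + 1) := by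
    calc C + D * ((e + 1) * 2 ^ e) * q ^ e ≤ C * q ^ e + D * ((e + 1) * 2 ^ e) * q ^ e := by
          have := Nat.le_mul_of_pos_right C hqe
          omega
      _ = (C + D * ((e + 1) * 2 ^ e)) * q ^ e := by ring
      _ ≤ q * q ^ e := Nat.mul_le_mul_right _ (by omega)
      _ = q ^ (e + 1) := by ring
  omega

lemma sum_three (m k₁ k₂ : ℕ) (h : k₁ + k₂ ≤ m) (D M₁ M₂ : ℕ) :
    ∑ j : Fin m, (if (j : ℕ) < k₁ then D + M₁ else if (j : ℕ) < k₁ + k₂ then D + M₂ else D)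
      = m * D + k₁ * M₁ + k₂ * M₂ := by
  rw [Fin.sum_univ_eq_sum_range
    (fun j => if j < k₁ then D + M₁ else if j < k₁ + k₂ then D + M₂ else D) m]
  obtain ⟨k₃, rfl⟩ : ∃ k₃, m = k₁ + k₂ + k₃ := ⟨m - (k₁ + k₂), by omega⟩
  rw [Finset.sum_range_add, Finset.sum_range_add]
  rw [Finset.sum_congr rfl (g := fun _ => D + M₁) (s₂ := Finset.range k₁)
      (fun x hx => by rw [if_pos (Finset.mem_range.1 hx)]),
    Finset.sum_congr rfl (g := fun _ => D + M₂) (s₂ := Finset.range k₂)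
      (fun x hx => by
        have := Finset.mem_range.1 hx
        rw [if_neg (by omega), if_pos (by omega)]),
    Finset.sum_congr rfl (g := fun _ => D) (s₂ := Finset.range k₃)
      (fun x hx => by rw [if_neg (by omega), if_neg (by omega)])]
  simp only [Finset.sum_const, Finset.card_range, smul_eq_mul]
  ring

lemma pow_succ_eq (b d : ℕ) (hd : 0 < d) :
    ∃ m, 0 < m ∧ (b + 1) ^ d = b ^ d + m ∧ Nat.Coprime m b := by
  have h1 : b ^ d < (b + 1) ^ d := Nat.pow_lt_pow_left (by omega) (by omega)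
  refine ⟨(b + 1) ^ d - b ^ d, by omega, by omega, ?_⟩
  have h2 : Nat.Coprime ((b + 1) ^ d) b := Nat.Coprime.pow_left _ (by simp)
  have h3 : b ∣ b ^ d := dvd_pow_self b (by omega)
  obtain ⟨c, hc⟩ := h3
  have h4 : (b + 1) ^ d = ((b + 1) ^ d - b ^ d) + b * c := by omega
  rw [h4] at h2
  exact (Nat.coprime_add_mul_left_left _ _ _).1 h2

/-- the tiling property with at most three sizes and ratio at most `(b+1)/b` -/
def Good (d n : ℕ) (a : Fin n → Fin d → ℝ) (s : Fin n → ℝ) : Prop :=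
  (∀ j, 0 < s j) ∧
    (∀ j k, j ≠ k → Disjoint (interior (box (a j) (s j))) (interior (box (a k) (s k)))) ∧
    (⋃ j, box (a j) (s j)) = box 0 1 ∧ (Set.range s).ncard ≤ 3

lemma fixed_b (d : ℕ) (hd : 0 < d) (b : ℕ) (hb : 0 < b) :
    ∃ N, ∀ n ≥ N, ∃ (a : Fin n → Fin d → ℝ) (s : Fin n → ℝ), Good d n a s ∧
      ∃ u : ℝ, 0 < u ∧ ∀ j, u * b ≤ s j ∧ s j ≤ u * (b + 1) := by
  obtain ⟨m, hm, hmb, hmc⟩ := pow_succ_eq b d hd
  set c := m * (b + 1) with hc
  have hcpos : 0 < c := by positivity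
  have hbc : b ≤ c := by nlinarith
  obtain ⟨m', hm', hmb', hmc'⟩ := pow_succ_eq c d hd
  have hcb : Nat.Coprime c b := Nat.Coprime.mul_left hmc (by simp)
  have hmm' : Nat.Coprime m m' := (Nat.Coprime.coprime_dvd_right (Dvd.intro _ rfl) hmc').symm
  have hcop : Nat.Coprime (c ^ d * m) (b ^ d * m') := by
    refine Nat.Coprime.mul_left ?_ ?_
    · exact Nat.Coprime.pow_left _ (Nat.Coprime.mul_right (Nat.Coprime.pow_right _ hcb) hmc'.symm)
    · exact Nat.Coprime.mul_right (Nat.Coprime.pow_right _ hmc) hmm'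
  obtain ⟨N, hN⟩ := arith d hd ((b * c) ^ d) (c ^ d * m) (b ^ d * m') (by positivity)
    (by positivity) (by positivity) hcop
  refine ⟨N, fun n hn => ?_⟩
  obtain ⟨q, k₁, k₂, hq, hk, hn'⟩ := hN n hn
  let r : (Fin d → Fin q) → ℕ := fun β =>
    if ((finFunctionFinEquiv β : Fin (q ^ d)) : ℕ) < k₁ then (b + 1) * c
    else if ((finFunctionFinEquiv β : Fin (q ^ d)) : ℕ) < k₁ + k₂ then b * (c + 1) else b * c
  have hr3 : ∀ β, r β = (b + 1) * c ∨ r β = b * (c + 1) ∨ r β = b * c := by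
    intro β
    simp only [r]
    split_ifs <;> simp
  have hr : ∀ β, 0 < r β := by
    intro β
    rcases hr3 β with h | h | h <;> rw [h] <;> positivity
  have hcard : Fintype.card (Idx r) = n := by
    rw [card_idx, hn', ← sum_three (q ^ d) k₁ k₂ hk, ← Equiv.sum_comp finFunctionFinEquiv]
    refine Finset.sum_congr rfl fun β _ => ?_
    simp only [r]
    split_ifs
    · rw [mul_pow (b + 1) c, mul_pow b c, hmb, add_mul, mul_comm m]
    · rw [mul_pow b (c + 1), mul_pow b c, hmb', mul_add]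
    · rfl
  let e : Fin n ≃ Idx r := (Fintype.equivFinOfCardEq hcard).symm
  have hq' : (0 : ℝ) < q := by exact_mod_cast hq
  have hb' : (0 : ℝ) < b := by exact_mod_cast hb
  have hc' : (0 : ℝ) < c := by exact_mod_cast hcpos
  have hbc' : (b : ℝ) ≤ c := by exact_mod_cast hbc
  refine ⟨fun j => corner r (e j), fun j => side r (e j), ⟨fun j => side_pos r hq hr _,
    fun j k hjk => disj r hq hr _ _ (e.injective.ne hjk), ?_, ?_⟩,
    1 / ((q : ℝ) * (b * (b + 1) * c)), by positivity, fun j => ?_⟩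
  · rw [← cover r hq hr]
    exact e.surjective.iUnion_comp (fun j => box (corner r j) (side r j))
  · have hsub : Set.range (fun j => side r (e j)) ⊆
        {1 / ((q : ℝ) * ((b + 1) * c : ℕ)), 1 / ((q : ℝ) * (b * (c + 1) : ℕ)),
          1 / ((q : ℝ) * (b * c : ℕ))} := by
      rintro _ ⟨j, rfl⟩
      simp only [side, Set.mem_insert_iff, Set.mem_singleton_iff]
      rcases hr3 (e j).1 with h | h | h <;> rw [h] <;> simp
    refine (Set.ncard_le_ncard hsub (Set.toFinite _)).trans ?_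
    refine (Set.ncard_insert_le _ _).trans ?_
    have := Set.ncard_insert_le (1 / ((q : ℝ) * (b * (c + 1) : ℕ))) {1 / ((q : ℝ) * (b * c : ℕ))}
    rw [Set.ncard_singleton] at this
    omega
  · have e1 : 1 / ((q : ℝ) * (b * (b + 1) * c)) * b = 1 / ((q : ℝ) * ((b + 1) * c)) := by
      field_simp
    have e2 : 1 / ((q : ℝ) * (b * (b + 1) * c)) * (b + 1) = 1 / ((q : ℝ) * (b * c)) := by
      field_simp
    rw [e1, e2]
    have hlo : (b : ℝ) * c ≤ r (e j).1 := by
      rcases hr3 (e j).1 with h | h | h <;> rw [h] <;> push_cast <;> nlinarith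
    have hhi : (r (e j).1 : ℝ) ≤ (b + 1) * c := by
      rcases hr3 (e j).1 with h | h | h <;> rw [h] <;> push_cast <;> nlinarith
    have hr' : (0 : ℝ) < r (e j).1 := by exact_mod_cast hr _
    simp only [side]
    constructor
    · apply one_div_le_one_div_of_le (by positivity)
      gcongr
    · apply one_div_le_one_div_of_le (by positivity)
      gcongr

theorem main (d : ℕ) (hd : 0 < d) :
    ∃ (n₀ : ℕ) (a : (n : ℕ) → Fin n → Fin d → ℝ) (s : (n : ℕ) → Fin n → ℝ),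
      (∀ n ≥ n₀, Good d n (a n) (s n)) ∧
      Tendsto (fun n => (⨆ j, s n j) / (⨅ j, s n j)) atTop (𝓝 1) := by
  classical
  choose N hN using fun b => fixed_b d hd (b + 1) (Nat.succ_pos b)
  let f : ℕ → ℕ := fun n => Nat.findGreatest (fun b => N b ≤ n) n
  have hf1 : ∀ n ≥ N 0, N (f n) ≤ n := fun n hn =>
    Nat.findGreatest_spec (P := fun b => N b ≤ n) (Nat.zero_le n) hn
  have hf2 : Tendsto f atTop atTop := by
    rw [tendsto_atTop_atTop]
    intro b
    refine ⟨max b (N b), fun n hn => ?_⟩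
    exact Nat.le_findGreatest (P := fun b => N b ≤ n) (le_trans (le_max_left _ _) hn)
      (le_trans (le_max_right _ _) hn)
  have hex : ∀ n, ∃ (a : Fin n → Fin d → ℝ) (s : Fin n → ℝ), n ≥ N 0 → (Good d n a s ∧
      ∃ u : ℝ, 0 < u ∧ ∀ j, u * ((f n + 1 : ℕ) : ℝ) ≤ s j ∧ s j ≤ u * ((f n + 1 : ℕ) + 1)) := by
    intro n
    by_cases hn : n ≥ N 0
    · obtain ⟨a, s, h⟩ := hN (f n) n (hf1 n hn)
      exact ⟨a, s, fun _ => h⟩
    · exact ⟨0, 0, fun h => absurd h hn⟩
  choose a s has using hex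
  refine ⟨N 0, a, s, fun n hn => (has n hn).1, ?_⟩
  have hup : Tendsto (fun n => 1 + 1 / ((f n : ℝ) + 1)) atTop (𝓝 1) := by
    have h1 : Tendsto (fun n => 1 / ((f n : ℝ) + 1)) atTop (𝓝 0) :=
      (tendsto_one_div_add_atTop_nhds_zero_nat (𝕜 := ℝ)).comp hf2
    simpa using h1.const_add 1
  refine tendsto_of_tendsto_of_tendsto_of_le_of_le' tendsto_const_nhds hup ?_ ?_
  · filter_upwards [eventually_ge_atTop (N 0), eventually_ge_atTop 1] with n hn hn1
    obtain ⟨-, u, hu, hs⟩ := has n hn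
    have : Nonempty (Fin n) := ⟨⟨0, hn1⟩⟩
    have hlo : u * ((f n + 1 : ℕ) : ℝ) ≤ ⨅ j, s n j := le_ciInf fun j => (hs j).1
    have hpos : 0 < ⨅ j, s n j := lt_of_lt_of_le (by positivity) hlo
    rw [le_div_iff₀ hpos, one_mul]
    exact le_trans (ciInf_le (Set.finite_range (s n)).bddBelow (⟨0, hn1⟩ : Fin n))
      (le_ciSup (Set.finite_range (s n)).bddAbove (⟨0, hn1⟩ : Fin n))
  · filter_upwards [eventually_ge_atTop (N 0), eventually_ge_atTop 1] with n hn hn1
    obtain ⟨-, u, hu, hs⟩ := has n hn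
    have : Nonempty (Fin n) := ⟨⟨0, hn1⟩⟩
    have hlo : u * ((f n + 1 : ℕ) : ℝ) ≤ ⨅ j, s n j := le_ciInf fun j => (hs j).1
    have hhi : ⨆ j, s n j ≤ u * ((f n + 1 : ℕ) + 1) := ciSup_le fun j => (hs j).2
    have hpos : 0 < ⨅ j, s n j := lt_of_lt_of_le (by positivity) hlo
    rw [div_le_iff₀ hpos]
    push_cast at hlo hhi
    have hF : (0 : ℝ) < (f n : ℝ) + 1 := by positivity
    calc ⨆ j, s n j ≤ u * ((f n : ℝ) + 1 + 1) := hhi
      _ = (1 + 1 / ((f n : ℝ) + 1)) * (u * ((f n : ℝ) + 1)) := by field_simp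
      _ ≤ (1 + 1 / ((f n : ℝ) + 1)) * ⨅ j, s n j := by gcongr

end Pool.Agent.Lib.MP_695dce_co
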